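import Mathlib
import Pool.Agent.H69.Grig

open Pool.Agent.H69.Grig

namespace Pool.Agent.Results.MP_40d7e0_al.Lambda

/-- The least admissible slope is exactly one. -/
theorem result : IsLeast {lam : ℝ | ∃ c : ℝ, ∀ g ∈ grig, g ≠ 1 →
    (depth g : ℝ) ≤ lam * Real.logb 2 (len g) + c} 1 :=
  main

end Pool.Agent.Results.MP_40d7e0_al.Lambda
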